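import Pool.Agent.Lib.MP_355270_an.Forward

/-!
# The case `p = ∞`

Definitions and statements of the pieces; the proofs are in the docstrings.
-/

open Filter Topology
open scoped ENNReal

namespace Pool.Agent.Lib.MP_355270_an.CZ

universe u

section Defs

variable (𝕜 : Type) [RCLike 𝕜] (G : ℕ → Type u) [∀ n, NormedAddCommGroup (G n)]
  [∀ n, NormedSpace 𝕜 (G n)]

/-- The `c_0`-sum of the spaces `G n`: the bounded sequences `y` with `y n ∈ G n` and `‖y n‖ → 0`. -/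
def c0sum : Submodule 𝕜 (lp G ∞) where
  carrier := {y | Tendsto (fun n => ‖y n‖) atTop (𝓝 0)}
  zero_mem' := by
    show Tendsto (fun n => ‖(0 : lp G ∞) n‖) atTop (𝓝 0)
    simp
  add_mem' := by
    intro x y hx hy
    have h : Tendsto (fun n => ‖x n‖ + ‖y n‖) atTop (𝓝 (0 + 0)) := Tendsto.add hx hy
    rw [add_zero] at h
    exact squeeze_zero (fun n => norm_nonneg _) (fun n => norm_add_le (x n) (y n)) h
  smul_mem' := by
    intro c x hx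
    have h : Tendsto (fun n => ‖c‖ * ‖x n‖) atTop (𝓝 (‖c‖ * 0)) := Tendsto.const_mul _ hx
    rw [mul_zero] at h
    exact squeeze_zero (fun n => norm_nonneg _) (fun n => norm_smul_le c (x n)) h

/-- The projection to the coordinate `n`. -/
noncomputable def evz (n : ℕ) : c0sum 𝕜 G →L[𝕜] G n :=
  (lp.evalCLM 𝕜 G ∞ n).comp (c0sum 𝕜 G).subtypeL

/-- The inclusion of the coordinate `n`. -/
noncomputable def sgz (n : ℕ) : G n →L[𝕜] c0sum 𝕜 G :=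
  (lp.singleContinuousLinearMap 𝕜 G ∞ n).codRestrict (c0sum 𝕜 G) (by
    intro a
    show Tendsto (fun k => ‖(lp.single ∞ n a : lp G ∞) k‖) atTop (𝓝 0)
    refine tendsto_const_nhds.congr' ?_
    filter_upwards [eventually_gt_atTop n] with k hk
    rw [lp.single_apply_ne _ _ _ (by omega), norm_zero])

/-- Truncation to the coordinates `< n`. -/
noncomputable def tauz (n : ℕ) : c0sum 𝕜 G →L[𝕜] c0sum 𝕜 G :=
  ∑ k ∈ Finset.range n, (sgz 𝕜 G k).comp (evz 𝕜 G k)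

end Defs

/-- Completeness. Proof: `c0sum` is closed in `lp G ∞` (which is complete): if `‖x - y‖ ≤ ε` and
`‖y n‖ → 0` then `‖x n‖ ≤ ε + ‖y n‖`. -/
def S_zcomplete : Prop :=
  ∀ (𝕜 : Type) [RCLike 𝕜] (G : ℕ → Type u) [∀ n, NormedAddCommGroup (G n)]
    [∀ n, NormedSpace 𝕜 (G n)] [∀ n, CompleteSpace (G n)], CompleteSpace (c0sum 𝕜 G)

/-- The properties of the coordinate operators. Compare `Tail.lean`, `StepCp.lean` (`tau_coe`,
`tau_comp`, `tau_succ`, `tau_finite`, `evp_sgp`, ...). For the convergence: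
`‖(t - tauz n t) k‖` is `0` for `k < n` and `‖t k‖` for `k ≥ n` (`lp.norm_le_of_forall_le`). -/
def S_zops : Prop :=
  ∀ (𝕜 : Type) [RCLike 𝕜] (G : ℕ → Type u) [∀ n, NormedAddCommGroup (G n)]
    [∀ n, NormedSpace 𝕜 (G n)],
    (∀ n a, ‖sgz 𝕜 G n a‖ ≤ ‖a‖) ∧ (∀ n t, ‖evz 𝕜 G n t‖ ≤ ‖t‖) ∧
    (∀ (t : c0sum 𝕜 G) (C : ℝ), 0 ≤ C → (∀ n, ‖evz 𝕜 G n t‖ ≤ C) → ‖t‖ ≤ C) ∧
    (∀ s t : c0sum 𝕜 G, (∀ n, evz 𝕜 G n s = evz 𝕜 G n t) → s = t) ∧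
    (∀ n t, ‖tauz 𝕜 G n t‖ ≤ ‖t‖) ∧ (tauz 𝕜 G 0 = 0) ∧
    (∀ n m t, tauz 𝕜 G n (tauz 𝕜 G m t) = tauz 𝕜 G (min n m) t) ∧
    (∀ n k t, evz 𝕜 G k (tauz 𝕜 G n t) = if k < n then evz 𝕜 G k t else 0) ∧
    (∀ n k a, tauz 𝕜 G n (sgz 𝕜 G k a) = if k < n then sgz 𝕜 G k a else 0) ∧
    (∀ n a, evz 𝕜 G n (sgz 𝕜 G n a) = a) ∧ (∀ n k a, n ≠ k → evz 𝕜 G n (sgz 𝕜 G k a) = 0) ∧
    (∀ n t, tauz 𝕜 G (n + 1) t = tauz 𝕜 G n t + sgz 𝕜 G n (evz 𝕜 G n t)) ∧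
    (∀ t, Tendsto (fun n => tauz 𝕜 G n t) atTop (𝓝 t)) ∧
    (∀ t, Tendsto (fun n => ‖evz 𝕜 G n t‖) atTop (𝓝 0)) ∧
    ((∀ n, FiniteDimensional 𝕜 (G n)) → ∀ n,
      FiniteDimensional 𝕜 (tauz 𝕜 G n).toLinearMap.range)

/-- A space with a finite-dimensional decomposition has a Schauder basis after adding a suitable
`c_0`-sum. Proof: that of `basis_of_fdd_p` in `StepCp.lean`, with `c0sum`, `sgz`, `evz`, `tauz` in place of
the `ℓᵖ`-sum (it only uses `basis_of_fdd_abs` and `exists_dil`). -/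
def S_zfdd : Prop :=
  ∀ (𝕜 : Type) [RCLike 𝕜] (X : Type u) [NormedAddCommGroup X] [NormedSpace 𝕜 X] [CompleteSpace X]
    (P : ℕ → X →L[𝕜] X), P 0 = 0 → (∀ n m x, P n (P m x) = P (min n m) x) →
    (∀ n, FiniteDimensional 𝕜 (P n).toLinearMap.range) →
    (∀ x, Tendsto (fun n => P n x) atTop (𝓝 x)) → ¬ FiniteDimensional 𝕜 X →
    ∃ (H : ℕ → Type u) (_ : ∀ n, NormedAddCommGroup (H n)) (_ : ∀ n, NormedSpace 𝕜 (H n))
      (_ : ∀ n, FiniteDimensional 𝕜 (H n)), Nonempty (SchauderBasis 𝕜 (X × c0sum 𝕜 H))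

/-- Absorption. Proof: `exists_matching` (`AbsorbP.lean`) gives a bijection `h : ℕ ⊕ ℕ → ℕ` and
isomorphisms `T n : F n → G (h (inl n))`, `T' n : G n → G (h (inr n))` with constants `C`. The map
`q ↦ ((T n)⁻¹ q (h (inl n)))_n, ((T' n)⁻¹ q (h (inr n)))_n` is a bounded bijection from `c0sum G` onto
`c0sum F × c0sum G` (see the proof of `absorbP_of_bij`; for `‖ ‖ → 0` use that an injective map
`ℕ → ℕ` tends to infinity along `cofinite = atTop`; for surjectivity, `‖q j‖ → 0` along `cofinite`: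
for `ε > 0` only finitely many `i : ℕ ⊕ ℕ` have `‖q (h i)‖ > ε`). -/
def S_zabsorb : Prop :=
  ∀ (𝕜 : Type) [RCLike 𝕜] (F G : ℕ → Type u) [∀ n, NormedAddCommGroup (F n)]
    [∀ n, NormedSpace 𝕜 (F n)] [∀ n, NormedAddCommGroup (G n)] [∀ n, NormedSpace 𝕜 (G n)]
    [∀ n, CompleteSpace (F n)] [∀ n, CompleteSpace (G n)] (C : ℝ), 1 ≤ C →
    (∀ n, {j | Iso 𝕜 C (F n) (G j)}.Infinite) → (∀ n, {j | Iso 𝕜 C (G n) (G j)}.Infinite) →
    Nonempty ((c0sum 𝕜 F × c0sum 𝕜 G) ≃L[𝕜] c0sum 𝕜 G)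

/-- If `E × c0sum F` has a finite-dimensional decomposition then `E × c0sum G` has a basis. Proof: that
of `assemble` in `Forward.lean`, with `c0sum`. -/
def S_zassemble : Prop :=
  ∀ (𝕜 : Type) [RCLike 𝕜] (G : ℕ → Type u) [∀ n, NormedAddCommGroup (G n)]
    [∀ n, NormedSpace 𝕜 (G n)], (∀ n, FiniteDimensional 𝕜 (G n)) →
    (∀ (A : Type u) [NormedAddCommGroup A] [NormedSpace 𝕜 A] [FiniteDimensional 𝕜 A] (ε : ℝ),
      0 < ε → ∃ n, ∃ T : A ≃L[𝕜] G n,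
        ‖(T : A →L[𝕜] G n)‖ * ‖(T.symm : G n →L[𝕜] A)‖ ≤ 1 + ε) →
    (∀ i, {j | Nonempty (G i ≃ₗᵢ[𝕜] G j)}.Infinite) →
    ∀ (F : ℕ → Type u) [∀ n, NormedAddCommGroup (F n)]
    [∀ n, NormedSpace 𝕜 (F n)] [∀ n, FiniteDimensional 𝕜 (F n)]
    (E : Type u) [NormedAddCommGroup E] [NormedSpace 𝕜 E] [CompleteSpace E]
    (q : ℕ → (E × c0sum 𝕜 F) →L[𝕜] (E × c0sum 𝕜 F)),
    (∀ n m x, q n (q m x) = q (min n m) x) →
    (∀ n, FiniteDimensional 𝕜 (q n).toLinearMap.range) →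
    (∀ x, Tendsto (fun n => q n x) atTop (𝓝 x)) →
    Nonempty (SchauderBasis 𝕜 (E × c0sum 𝕜 G))

/-- `E × c0sum V` has a finite-dimensional decomposition. Proof. `W k : E → V k` is `w k`,
`z (x, y) k = W k x + y k ∈ V k`, and with `v = z (x, y) n`:
`q n (x, y) = (v, ∑_{k ≤ n} sgz k (z (x, y) k - W k v))`. Then `z (q n p) k = z p (min k n)`: for
`k ≤ n` it is `W k v + z p k - W k v`, and for `k > n` it is `W k v = v` because
`v ∈ V n ≤ V (k - 1)`. So `(q n (q m p)).1 = z (q m p) n = z p (min n m)`, and the `k`-th coordinate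
(`k ≤ n`) of `(q n (q m p)).2` is `z p (min k m) - W k (z p (min n m))`, which is `0` if `m < k ≤ n`. Finite
rank: clear (`V n` and the ranges of `sgz k`, `k ≤ n`). Convergence: `v → x` (`w n x → x`,
`‖y n‖ → 0`), and `(q n (x, y)).2 - y` has the coordinates `W k (x - v)` (`k ≤ n`; norm
`≤ K ‖x - v‖`) and `- y k` (`k > n`). -/
def S_zq : Prop :=
  ∀ (𝕜 : Type) [RCLike 𝕜] (E : Type u) [NormedAddCommGroup E] [NormedSpace 𝕜 E]
    (V : ℕ → Submodule 𝕜 E) (w : ℕ → E →L[𝕜] E) (K : ℝ), (∀ n, FiniteDimensional 𝕜 (V n)) →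
    Monotone V → (∀ n x, w n x ∈ V n) → (∀ n, ∀ y ∈ V n, w (n + 1) y = y) → (∀ n, ‖w n‖ ≤ K) →
    (∀ x, Tendsto (fun n => w n x) atTop (𝓝 x)) →
    ∃ q : ℕ → (E × c0sum 𝕜 (fun n => ↥(V n))) →L[𝕜] (E × c0sum 𝕜 (fun n => ↥(V n))),
      (∀ n m x, q n (q m x) = q (min n m) x) ∧
      (∀ n, FiniteDimensional 𝕜 (q n).toLinearMap.range) ∧
      ∀ x, Tendsto (fun n => q n x) atTop (𝓝 x)

/-- The case `p = ∞`. Proof: `normalize` (`StepA.lean`), `S_zq`, `S_zassemble`. -/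
def S_zmain : Prop :=
  ∀ (𝕜 : Type) [RCLike 𝕜] (G : ℕ → Type u) [∀ n, NormedAddCommGroup (G n)]
    [∀ n, NormedSpace 𝕜 (G n)], (∀ n, FiniteDimensional 𝕜 (G n)) →
    (∀ (A : Type u) [NormedAddCommGroup A] [NormedSpace 𝕜 A] [FiniteDimensional 𝕜 A] (ε : ℝ),
      0 < ε → ∃ n, ∃ T : A ≃L[𝕜] G n,
        ‖(T : A →L[𝕜] G n)‖ * ‖(T.symm : G n →L[𝕜] A)‖ ≤ 1 + ε) →
    (∀ i, {j | Nonempty (G i ≃ₗᵢ[𝕜] G j)}.Infinite) →
    ∀ (E : Type u) [NormedAddCommGroup E] [NormedSpace 𝕜 E] [CompleteSpace E]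
    (v : ℕ → E →L[𝕜] E), (∀ n, FiniteDimensional 𝕜 (v n).toLinearMap.range) →
    (∀ x, Tendsto (fun n => v n x) atTop (𝓝 x)) →
    Nonempty (SchauderBasis 𝕜 (E × c0sum 𝕜 G))

end Pool.Agent.Lib.MP_355270_an.CZ
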